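import Pool.Agent.X72.Bishop.Core

namespace Pool.Agent.Results.MP_8e2e71_co.BishopsDomination

open Finset Pool.Agent.X72.Bishop

/-- The bishops graph `B_{k,n}` of the `k × n` board (rows and columns numbered from `0`):
distinct squares `(i,j)`, `(i',j')` are adjacent iff `|i - i'| = |j - j'|`. -/
def bishopsGraph (k n : ℕ) : SimpleGraph (Fin k × Fin n) where
  Adj x y := x ≠ y ∧ |((x.1 : ℕ) : ℤ) - ((y.1 : ℕ) : ℤ)| = |((x.2 : ℕ) : ℤ) - ((y.2 : ℕ) : ℤ)|
  symm := ⟨fun x y h => ⟨h.1.symm, by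
    rw [abs_sub_comm, h.2, abs_sub_comm]⟩⟩
  loopless := ⟨fun x h => h.1 rfl⟩

/-- `D` is a dominating set: each vertex outside `D` is adjacent to some vertex of `D`. -/
def IsDominating {V : Type*} (G : SimpleGraph V) (D : Finset V) : Prop :=
  ∀ v, v ∉ D → ∃ w ∈ D, G.Adj v w

/-- The domination number: the least size of a dominating set. -/
noncomputable def dominationNumber {V : Type*} (G : SimpleGraph V) : ℕ :=
  sInf {m | ∃ D : Finset V, IsDominating G D ∧ D.card = m}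

/-- The squares of `D` of parity class `π`, in index coordinates. -/
def cls (k n : ℕ) (D : Finset (Fin k × Fin n)) (r : ℤ) : Finset (ℤ × ℤ) :=
  (D.filter (fun x => ((((x.1 : ℕ) : ℤ) + ((x.2 : ℕ) : ℤ)) % 2 = r))).image
    (fun x => ((((x.1 : ℕ) : ℤ) + ((x.2 : ℕ) : ℤ) + 2 - r) / 2,
      (((x.2 : ℕ) : ℤ) - ((x.1 : ℕ) : ℤ) - r) / 2))

lemma mem_cls {k n : ℕ} {D : Finset (Fin k × Fin n)} {r : ℤ} {y : ℤ × ℤ} :
    y ∈ cls k n D r ↔ ∃ x ∈ D, ((((x.1 : ℕ) : ℤ) + ((x.2 : ℕ) : ℤ)) % 2 = r) ∧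
      ((((x.1 : ℕ) : ℤ) + ((x.2 : ℕ) : ℤ) + 2 - r) / 2,
      (((x.2 : ℕ) : ℤ) - ((x.1 : ℕ) : ℤ) - r) / 2) = y := by
  unfold cls
  rw [Finset.mem_image]
  constructor
  · rintro ⟨x, hx, h⟩
    rw [Finset.mem_filter] at hx
    exact ⟨x, hx.1, hx.2, h⟩
  · rintro ⟨x, hx, h, h2⟩
    exact ⟨x, by rw [Finset.mem_filter]; exact ⟨hx, h⟩, h2⟩

lemma cls_bound (k n : ℕ) (hk : 2 ≤ k) (hn : 2 * k ≤ n + 1) (D : Finset (Fin k × Fin n))
    (hD : IsDominating (bishopsGraph k n) D) (r : ℤ) (hr : r = 0 ∨ r = 1) :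
    (k : ℤ) + n - 2 ≤ 3 * (cls k n D r).card := by
  apply class_bound (k := k) (n := n) (π := r) (by omega) (by omega)
  · intro y hy
    rw [mem_cls] at hy
    obtain ⟨x, hx, hpar, rfl⟩ := hy
    have h1 := x.1.isLt
    have h2 := x.2.isLt
    refine ⟨?_, ?_, ?_, ?_⟩ <;> simp only <;> omega
  · intro p q hpq
    obtain ⟨b1, b2, b3, b4⟩ := hpq
    set v : Fin k × Fin n := (⟨(p - q - 1).toNat, by omega⟩, ⟨(p + q + r - 1).toNat, by omega⟩)
      with hv
    have hv1 : (((v.1 : ℕ)) : ℤ) = p - q - 1 := by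
      simp only [hv]
      omega
    have hv2 : (((v.2 : ℕ)) : ℤ) = p + q + r - 1 := by
      simp only [hv]
      omega
    by_cases hvD : v ∈ D
    · left
      rw [Finset.mem_image]
      refine ⟨_, mem_cls.2 ⟨v, hvD, ?_, rfl⟩, ?_⟩
      · rw [hv1, hv2]
        omega
      · simp only
        rw [hv1, hv2]
        omega
    · obtain ⟨w, hwD, hw⟩ := hD v hvD
      have hw2 := hw.2
      rw [hv1, hv2] at hw2
      rcases abs_eq_abs.1 hw2 with h | h
      · right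
        rw [Finset.mem_image]
        refine ⟨_, mem_cls.2 ⟨w, hwD, ?_, rfl⟩, ?_⟩
        · omega
        · simp only
          omega
      · left
        rw [Finset.mem_image]
        refine ⟨_, mem_cls.2 ⟨w, hwD, ?_, rfl⟩, ?_⟩
        · omega
        · simp only
          omega

lemma dom_card (k n : ℕ) (hk : 2 ≤ k) (hn : 2 * k ≤ n + 1) (D : Finset (Fin k × Fin n))
    (hD : IsDominating (bishopsGraph k n) D) : 2 * ((k + n) / 3) ≤ D.card := by
  have h0 := cls_bound k n hk hn D hD 0 (Or.inl rfl)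
  have h1 := cls_bound k n hk hn D hD 1 (Or.inr rfl)
  have c0 : (cls k n D 0).card ≤
      (D.filter (fun x => ((((x.1 : ℕ) : ℤ) + ((x.2 : ℕ) : ℤ)) % 2 = 0))).card :=
    Finset.card_image_le
  have c1 : (cls k n D 1).card ≤
      (D.filter (fun x => ((((x.1 : ℕ) : ℤ) + ((x.2 : ℕ) : ℤ)) % 2 = 1))).card :=
    Finset.card_image_le
  have hdis : Disjoint (D.filter (fun x => ((((x.1 : ℕ) : ℤ) + ((x.2 : ℕ) : ℤ)) % 2 = 0)))
      (D.filter (fun x => ((((x.1 : ℕ) : ℤ) + ((x.2 : ℕ) : ℤ)) % 2 = 1))) := by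
    rw [Finset.disjoint_left]
    intro x hx hx2
    rw [Finset.mem_filter] at hx hx2
    omega
  have hun := Finset.card_le_card (Finset.union_subset
    (Finset.filter_subset (fun x : Fin k × Fin n => ((((x.1 : ℕ) : ℤ) + ((x.2 : ℕ) : ℤ)) % 2 = 0)) D)
    (Finset.filter_subset (fun x : Fin k × Fin n => ((((x.1 : ℕ) : ℤ) + ((x.2 : ℕ) : ℤ)) % 2 = 1)) D))
  rw [Finset.card_union_of_disjoint hdis] at hun
  omega

/-- **Q1 (Fisher–Thalos), the open inequality.**  For all `k ≥ 2` and `n ≥ 2k - 1` (in particular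
whenever `2 < 2k < n`) every dominating set of `B_{k,n}` has at least `2⌊(k+n)/3⌋` squares, that is
`γ(B_{k,n}) ≥ 2⌊(k+n)/3⌋`. -/
theorem result (k n : ℕ) (hk : 2 < 2 * k) (hn : 2 * k < n + 2) :
    (∀ D : Finset (Fin k × Fin n), IsDominating (bishopsGraph k n) D →
      2 * ((k + n) / 3) ≤ D.card) ∧
    2 * ((k + n) / 3) ≤ dominationNumber (bishopsGraph k n) := by
  have key : ∀ D : Finset (Fin k × Fin n), IsDominating (bishopsGraph k n) D →
      2 * ((k + n) / 3) ≤ D.card := fun D hD => dom_card k n (by omega) (by omega) D hD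
  refine ⟨key, ?_⟩
  have hne : {m | ∃ D : Finset (Fin k × Fin n), IsDominating (bishopsGraph k n) D ∧
      D.card = m}.Nonempty :=
    ⟨_, Finset.univ, fun v hv => absurd (Finset.mem_univ v) hv, rfl⟩
  obtain ⟨D, hD, hc⟩ := Nat.sInf_mem hne
  unfold dominationNumber
  rw [← hc]
  exact key D hD

end Pool.Agent.Results.MP_8e2e71_co.BishopsDomination
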